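import Mathlib
import Pool.Agent.H1.BoxEx

set_option autoImplicit false

namespace Pool.Agent.Results.MP_c59173_co.Disproof

open Pointwise

/-- The product set `T 0 * T 1 * ... * T (n-1)`, taken in this order. -/
def prodSet {G : Type} [Group G] [DecidableEq G] {n : ℕ} (T : Fin n → Finset G) : Finset G :=
  (List.ofFn T).prod

/-- `N_A`: the largest size of the product set when each `S i` with `i ∉ A` is replaced by a
one-element subset. -/
def N {G : Type} [Group G] [DecidableEq G] {n : ℕ} (S : Fin n → Finset G) (A : Finset (Fin n)) :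
    ℕ :=
  (Fintype.piFinset S).sup fun x => (prodSet fun i => if i ∈ A then S i else {x i}).card

theorem result :
    ¬ (∀ (G : Type) [Group G] [DecidableEq G] (n : ℕ), 1 ≤ n →
      ∀ S : Fin n → Finset G, (∀ i, (S i).Nonempty) →
        ∃ l : Fin n → ℝ, (∀ i, 0 < l i) ∧ ∏ i, l i = ((prodSet S).card : ℝ) ∧
          ∀ A : Finset (Fin n), ∏ i ∈ A, l i ≤ (N S A : ℝ)) := by
  intro h
  open Pool.Agent.H1.BoxEx in
  obtain ⟨l, hl, h0, hA⟩ := h G 4 (by norm_num) ![SA, SB, SC, SD] (by
    intro i; fin_cases i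
    · exact hA
    · exact hB
    · exact hC
    · exact hD)
  have e0 : prodSet ![SA, SB, SC, SD] = SA * SB * SC * SD := by
    simp [prodSet, List.ofFn_succ, mul_assoc]
  have e1 : N ![SA, SB, SC, SD] {0, 2} ≤ 16 := by
    unfold N
    apply Finset.sup_le
    intro x hx
    have hx1 : x 1 ∈ SB := Fintype.mem_piFinset.1 hx 1
    have : (prodSet fun i => if i ∈ ({0, 2} : Finset (Fin 4)) then ![SA, SB, SC, SD] i else {x i}) =
        SA * {x 1} * SC * {x 3} := by
      simp [prodSet, List.ofFn_succ, mul_assoc]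
    rw [this, Finset.card_mul_singleton]
    exact h2 _ hx1
  have e2 : N ![SA, SB, SC, SD] {1, 3} ≤ 32 := by
    unfold N
    apply Finset.sup_le
    intro x hx
    have hx1 : x 2 ∈ SC := Fintype.mem_piFinset.1 hx 2
    have : (prodSet fun i => if i ∈ ({1, 3} : Finset (Fin 4)) then ![SA, SB, SC, SD] i else {x i}) =
        {x 0} * (SB * {x 2} * SD) := by
      simp [prodSet, List.ofFn_succ, mul_assoc]
    rw [this, Finset.card_singleton_mul]
    exact h3 _ hx1
  rw [e0, Fin.prod_univ_four] at h0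
  have h640 : (640 : ℝ) ≤ ((SA * SB * SC * SD).card : ℝ) := by exact_mod_cast h1
  have f1 := hA {0, 2}
  have f2 := hA {1, 3}
  rw [Finset.prod_pair (by decide)] at f1 f2
  have g1 : l 0 * l 2 ≤ 16 := f1.trans (by exact_mod_cast e1)
  have g2 : l 1 * l 3 ≤ 32 := f2.trans (by exact_mod_cast e2)
  have g3 : (l 0 * l 2) * (l 1 * l 3) ≤ 16 * 32 :=
    mul_le_mul g1 g2 (mul_pos (hl 1) (hl 3)).le (by norm_num)
  generalize ((SA * SB * SC * SD).card : ℝ) = s at h0 h640
  have g4 : (l 0 * l 2) * (l 1 * l 3) = s := by rw [← h0]; ring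
  linarith

end Pool.Agent.Results.MP_c59173_co.Disproof
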